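import Pool.Agent.Q28.BM.Main

/-!
# Simply connected symplectic four-manifolds with `3σ = χ` and the inequality `3σ ≤ χ`

For a closed symplectic four-manifold `3σ - χ` is divisible by 4, and it decreases by 4 under a
blow-up. So the `k`-fold blow-up of a simply connected symplectic four-manifold with `3σ = χ + 4k`,
`k > 0`, has `3σ = χ` and is not `CP²`. Hence question Q1 (must a simply connected symplectic
four-manifold with `3σ = χ` be `CP²`?) is equivalent to the strict Bogomolov-Miyaoka-Yau inequality
`3σ < χ` for all simply connected symplectic four-manifolds other than `CP²`; in particular a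
positive answer implies the inequality `3σ ≤ χ` for all simply connected symplectic four-manifolds.
-/

universe u

namespace Pool.Agent.Results.MP_dbd540_gt.EquivalentToInequality

open Pool.Agent.Q28.BM

/-- **Simply connected symplectic four-manifolds with `3σ = χ`.** Let `T` be the closed symplectic
four-manifolds (`hT`: known facts).

1. Equivalent are: (Q1) all simply connected `X` with `c₁² = 3c₂` (that is, `3σ = χ`) are
  diffeomorphic to `CP²`; `c₁² < 3c₂` (that is, `3σ < χ`) for all simply connected `X` not
  diffeomorphic to `CP²`; `c₁² ≤ 3c₂` for all simply connected `X`, and all simply connected minimal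
  `X` with `c₁² = 3c₂` are diffeomorphic to `CP²`.
2. If `X` is simply connected with `c₁² = 3c₂ + 4k`, `k > 0`, there is a counterexample to Q1 with
  the same `b⁺` and with `b⁻` increased by `k`. -/
theorem result (T : Symplectic.{u}) (hT : T.Facts) :
    [∀ X, T.SC X → c₁sq X = 3 * e X → T.IsPlane X,
     ∀ X, T.SC X → ¬ T.IsPlane X → c₁sq X < 3 * e X,
     (∀ X, T.SC X → c₁sq X ≤ 3 * e X) ∧
       ∀ X, T.SC X → Minimal X → c₁sq X = 3 * e X → T.IsPlane X].TFAE ∧
    ∀ (X : T.Mfd) (k : ℕ), T.SC X → 0 < k → c₁sq X = 3 * e X + 4 * k →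
      ∃ Y : T.Mfd, T.SC Y ∧ T.bp Y = T.bp X ∧ T.bm Y = T.bm X + k ∧ c₁sq Y = 3 * e Y ∧
        ¬ T.IsPlane Y :=
  ⟨hT.tfae_plane, hT.blow_plane⟩

end Pool.Agent.Results.MP_dbd540_gt.EquivalentToInequality
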